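import Pool.Agent.Q72.PW.Main

/-!
# Splitting of rank two bundles tested on rational surfaces of every degree

Let `ψ : P^m → P^n`, `m ≥ 2`, be a composition of linear embeddings and of the maps
`x_i ↦ x_i ^ e` of projective spaces.  A rank two bundle `E` on `P^n` splits if and only if its
pull-back to `P^m` splits.  For `ψ` a linear embedding this is the theorem of Horrocks; in general
it follows from it and from the descent of splitting under the maps `x_i ↦ x_i ^ e`.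
-/

set_option autoImplicit false

open H960VB H938TB Pool.Agent.Q72.PW

namespace Pool.Agent.Results.MP_745d3a_ag.TestSurfaces

/-- The morphisms `P^m → P^n`, `m ≥ 2`, of degree `e`, given by maps `ψ : ℂ^(m+1) → ℂ^(n+1)`, which
are compositions of linear embeddings and of the maps `x_i ↦ x_i ^ f`. -/
inductive Test (n : ℕ) : (m e : ℕ) → ((Fin (m + 1) → ℂ) → Fin (n + 1) → ℂ) → Prop
  | id (hn : 2 ≤ n) : Test n n 1 id
  | lin {m e : ℕ} {ψ : (Fin (m + 1) → ℂ) → Fin (n + 1) → ℂ} (h : Test n m e ψ)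
      (k : ℕ) (hk : 2 ≤ k) (T : (Fin (k + 1) → ℂ) →ₗ[ℂ] (Fin (m + 1) → ℂ))
      (hT : Function.Injective T) : Test n k e (fun x => ψ (T x))
  | pow {m e : ℕ} {ψ : (Fin (m + 1) → ℂ) → Fin (n + 1) → ℂ} (h : Test n m e ψ)
      (f : ℕ) (hf : 0 < f) : Test n m (f * e) (fun x => ψ (fun i => x i ^ f))

/-- The pull-back of `E` under the morphism of degree `e` from `P^m` to `P^n` given by `ψ` is
isomorphic to `O(p) ⊕ O(q)` for some `p`, `q`. -/
def PullSplits {n m : ℕ} (E : Bundle2 n) (e : ℕ) (ψ : (Fin (m + 1) → ℂ) → Fin (n + 1) → ℂ) :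
    Prop :=
  ∃ (p q : ℤ) (G₁ G₂ : Fin E.a → MvPolynomial (Fin (m + 1)) ℂ),
    (∀ i, HomZ (G₁ i) (e * E.β i - p)) ∧ (∀ i, HomZ (G₂ i) (e * E.β i - q)) ∧
    ∀ x : Fin (m + 1) → ℂ, x ≠ 0 → evv G₁ x ∈ E.fib (ψ x) ∧ evv G₂ x ∈ E.fib (ψ x) ∧
      LinearIndependent ℂ ![evv G₁ x, evv G₂ x]

theorem splits_pull {n m : ℕ} {E : Bundle2 n}
    {T : (Fin (m + 1) → ℂ) →ₗ[ℂ] (Fin (n + 1) → ℂ)} {hT : Function.Injective T}
    (h : E.Splits) : (E.pull T hT).Splits := by
  obtain ⟨p, q, G₁, G₂, h1, h2, h3⟩ := h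
  have key : ∀ (d : ℤ) (G : Fin E.a → MvPolynomial (Fin (n + 1)) ℂ), E.IsSection d G →
      (E.pull T hT).IsSection d (fun i => lsub T (G i)) := by
    intro d G hG
    refine ⟨fun i => homZ_lsub T (hG.1 i), fun x hx => ?_⟩
    rw [Bundle2.fib_pull]
    have h5 := hG.2 (T x) (fun h0 => hx (hT (by rw [h0, map_zero])))
    have h6 : evv (fun i => lsub T (G i)) x = evv G (T x) := by
      funext i; exact eval_lsub T x _
    have h7 : evv (fun i => lsub T (G i)) x ∈ E.fib (T x) := by rw [h6]; exact h5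
    exact h7
  refine ⟨p, q, _, _, key _ _ h1, key _ _ h2, fun x hx => ?_⟩
  have h5 := h3 (T x) (fun h0 => hx (hT (by rw [h0, map_zero])))
  have h6 : ∀ G : Fin E.a → MvPolynomial (Fin (n + 1)) ℂ,
      evv (fun i => lsub T (G i)) x = evv G (T x) := by
    intro G; funext i; exact eval_lsub T x _
  show LinearIndependent ℂ ![evv (fun i : Fin E.a => lsub T (G₁ i)) x,
    evv (fun i : Fin E.a => lsub T (G₂ i)) x]
  rw [h6, h6]
  exact h5

theorem splits_pow {n : ℕ} {E : Bundle2 n} {e : ℕ} (he : 0 < e) (h : E.Splits) :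
    (pull E e he 0).Splits := by
  obtain ⟨p, q, G₁, G₂, h1, h2, h3⟩ := h
  have key : ∀ (d : ℤ) (G : Fin E.a → MvPolynomial (Fin (n + 1)) ℂ), E.IsSection d G →
      (pull E e he 0).IsSection (e * d) (fun i => MvPolynomial.expand e (G i)) := by
    intro d G hG
    refine section_of_ker (fun i => ?_) ((ker_pull he 0).2 (ker_of_section hG))
    have h4 := HomZ.expand e he (hG.1 i)
    have h5 : (e : ℤ) * (E.β i + d) = (e * E.β i + 0) + e * d := by ring
    rw [h5] at h4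
    exact h4
  have k1 := key _ _ h1
  have k2 := key _ _ h2
  rw [mul_neg] at k1 k2
  refine ⟨e * p, e * q, _, _, k1, k2, fun x hx => ?_⟩
  have h5 := h3 (pt e x) (pt_ne he hx)
  have h6 : ∀ G : Fin E.a → MvPolynomial (Fin (n + 1)) ℂ,
      evv (fun i => MvPolynomial.expand e (G i)) x = evv G (pt e x) := by
    intro G; funext i; exact eval_pt e x _
  rw [h6, h6]
  exact h5

/-- the pull-back, as a bundle -/
theorem exists_bundle {n m e : ℕ} {ψ : (Fin (m + 1) → ℂ) → Fin (n + 1) → ℂ}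
    (h : Test n m e ψ) (E : Bundle2 n) : 2 ≤ m ∧
    ∃ (c : ℕ) (β : Fin E.a → ℤ) (γ : Fin c → ℤ)
      (B : Matrix (Fin c) (Fin E.a) (MvPolynomial (Fin (m + 1)) ℂ))
      (h1 : ∀ k i, HomZ (B k i) (γ k - β i))
      (h2 : ∀ x : Fin (m + 1) → ℂ, x ≠ 0 →
        Module.finrank ℂ (LinearMap.ker (Matrix.mulVecLin (evm B x))) = 2),
      (∀ i, β i = e * E.β i) ∧
      (∀ x, (⟨E.a, c, β, γ, B, h1, h2⟩ : Bundle2 m).fib x = E.fib (ψ x)) ∧
      ((⟨E.a, c, β, γ, B, h1, h2⟩ : Bundle2 m).Splits ↔ E.Splits) := by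
  induction h with
  | id hn =>
    refine ⟨hn, E.c, E.β, E.γ, E.B, E.hom, E.rank_two, fun i => ?_, fun x => rfl, Iff.rfl⟩
    push_cast
    rw [one_mul]
  | @lin m e ψ _ k hk T hT ih =>
    obtain ⟨hm, c, β, γ, B, h1, h2, hβ, hfib, hs⟩ := ih
    refine ⟨hk, c, β, γ, _,
      ((⟨E.a, c, β, γ, B, h1, h2⟩ : Bundle2 m).pull T hT).hom,
      ((⟨E.a, c, β, γ, B, h1, h2⟩ : Bundle2 m).pull T hT).rank_two, hβ, fun x => ?_, ?_⟩
    · have h3 := Bundle2.fib_pull (⟨E.a, c, β, γ, B, h1, h2⟩ : Bundle2 m) T hT x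
      rw [hfib] at h3
      exact h3
    · rw [← hs]
      constructor
      · intro h4
        have hkm : k ≤ m := by
          have h1 := LinearMap.finrank_le_finrank_of_injective hT
          simpa using h1
        exact Bundle2.splits_of_pull (m - k) k m hk (by omega) _ T hT h4
      · intro h4
        exact splits_pull (hT := hT) h4
  | @pow m e ψ _ f hf ih =>
    obtain ⟨hm, c, β, γ, B, h1, h2, hβ, hfib, hs⟩ := ih
    refine ⟨hm, c, _, _, _,
      (pull (⟨E.a, c, β, γ, B, h1, h2⟩ : Bundle2 m) f hf 0).hom,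
      (pull (⟨E.a, c, β, γ, B, h1, h2⟩ : Bundle2 m) f hf 0).rank_two, fun i => ?_, fun x => ?_, ?_⟩
    · show (f : ℤ) * β i + 0 = _
      rw [hβ]
      push_cast
      ring
    · have h3 := Pool.Agent.Q72.PW.fib_pull (⟨E.a, c, β, γ, B, h1, h2⟩ : Bundle2 m) f hf 0 x
      rw [hfib] at h3
      exact h3
    · rw [← hs]
      constructor
      · intro h4
        exact Pool.Agent.Q72.PW.splits_of_pull (by omega) hf 0 h4
      · intro h4
        exact splits_pow hf h4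

theorem result {n m e : ℕ} (ψ : (Fin (m + 1) → ℂ) → Fin (n + 1) → ℂ) (h : Test n m e ψ)
    (E : Bundle2 n) : PullSplits E e ψ ↔ E.Splits := by
  obtain ⟨_, c, β, γ, B, h1, h2, hβ, hfib, hs⟩ := exists_bundle h E
  rw [← hs]
  constructor
  · rintro ⟨p, q, G₁, G₂, g1, g2, g3⟩
    refine ⟨p, q, G₁, G₂, ⟨fun i => ?_, fun x hx => ?_⟩, ⟨fun i => ?_, fun x hx => ?_⟩,
      fun x hx => (g3 x hx).2.2⟩
    · show HomZ (G₁ i) (β i + -p)
      rw [hβ, ← sub_eq_add_neg]
      exact g1 i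
    · rw [hfib]; exact (g3 x hx).1
    · show HomZ (G₂ i) (β i + -q)
      rw [hβ, ← sub_eq_add_neg]
      exact g2 i
    · rw [hfib]; exact (g3 x hx).2.1
  · rintro ⟨p, q, G₁, G₂, g1, g2, g3⟩
    refine ⟨p, q, G₁, G₂, fun i => ?_, fun i => ?_, fun x hx => ⟨?_, ?_, g3 x hx⟩⟩
    · have g4 : HomZ (G₁ i) (β i + -p) := g1.1 i
      rw [hβ, ← sub_eq_add_neg] at g4
      exact g4
    · have g4 : HomZ (G₂ i) (β i + -q) := g2.1 i
      rw [hβ, ← sub_eq_add_neg] at g4
      exact g4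
    · have g4 := g1.2 x hx
      rw [hfib] at g4
      exact g4
    · have g4 := g2.2 x hx
      rw [hfib] at g4
      exact g4

end Pool.Agent.Results.MP_745d3a_ag.TestSurfaces
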