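import Pool.Agent.Q72.PW.Main
import Pool.Agent.H106R3.VB.Jump

/-!
# Jumping rational curves of every degree through every point

Let `E` be a rank two vector bundle on `P^n` which does not split.  Let `e ≥ 1`, let `T` be an
injective linear map `ℂ^(m+1) → ℂ^(n+1)` with `m ≥ 2`, let `Λ ⊆ ℂ^(m+1)` be a linear subspace of
dimension at least three and `P ≠ 0` a point of `Λ`.  Then there is a point `Q` of `Λ`, not
proportional to `P`, such that the pull-back of `E` to `P^1` under the morphism of degree `e`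
`z ↦ T (ℓ_0(z) ^ e, ..., ℓ_m(z) ^ e)`, `ℓ(z) = z_0 P + z_1 Q`, is `O(p) ⊕ O(q)` with
`|p - q| ≥ dim Λ - 2`.

For `T` the identity, `m = n` and `Λ = ℂ^(n+1)` these are rational curves through the point
`(P_0 ^ e : ... : P_n ^ e)`, which is arbitrary, and `|p - q| ≥ n - 1`.

The pull-back of `E` under `T` and the map `x_i ↦ x_i ^ e` does not split (`splits_of_pull`), so the
theorem on jumping lines of the starting files (`MP_b01859_ag.JumpingLines`) applies to it.
-/

set_option autoImplicit false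

open H960VB Pool.Agent.Q72.PW

namespace Pool.Agent.Results.MP_745d3a_ag.JumpingCurves

/-- The pull-back of `E` under the morphism of degree `e` from `P^1` to `P^n` given by
`γ : ℂ² → ℂ^(n+1)` is isomorphic to `O(p) ⊕ O(q)`. -/
def SplitsAlong {n : ℕ} (E : Bundle2 n) (e : ℕ) (γ : (Fin 2 → ℂ) → Fin (n + 1) → ℂ)
    (p q : ℤ) : Prop :=
  ∃ g₁ g₂ : Fin E.a → MvPolynomial (Fin 2) ℂ,
    (∀ i, HomZ (g₁ i) (e * E.β i - p)) ∧ (∀ i, HomZ (g₂ i) (e * E.β i - q)) ∧
    ∀ z : Fin 2 → ℂ, z ≠ 0 →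
      evv g₁ z ∈ E.fib (γ z) ∧ evv g₂ z ∈ E.fib (γ z) ∧
      LinearIndependent ℂ ![evv g₁ z, evv g₂ z]

theorem result {n : ℕ} (E : Bundle2 n) (hE : ¬ E.Splits) (e : ℕ) (he : 0 < e)
    (m : ℕ) (hm : 2 ≤ m) (T : (Fin (m + 1) → ℂ) →ₗ[ℂ] (Fin (n + 1) → ℂ))
    (hT : Function.Injective T)
    (Λ : Submodule ℂ (Fin (m + 1) → ℂ)) (hΛ : 3 ≤ Module.finrank ℂ Λ)
    (P : Fin (m + 1) → ℂ) (hPΛ : P ∈ Λ) (hP : P ≠ 0) :
    ∃ Q ∈ Λ, LinearIndependent ℂ ![P, Q] ∧ ∃ p q : ℤ,
      SplitsAlong E e (fun z => T (fun j => (z 0 * P j + z 1 * Q j) ^ e)) p q ∧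
      (Module.finrank ℂ Λ : ℤ) - 2 ≤ |p - q| := by
  have hmn : m ≤ n := by
    have h1 := LinearMap.finrank_le_finrank_of_injective hT
    simpa using h1
  by_contra hcon
  apply hE
  refine Bundle2.splits_of_pull (n - m) m n hm (by omega) E T hT ?_
  refine splits_of_pull (by omega) he 0 ?_
  refine Bundle2.main_subspace _ Λ hΛ P hPΛ hP fun Q hQ hPQ => ?_
  push Not at hcon
  obtain ⟨p, q, hpq⟩ := Pool.Agent.H106R3.VB.splitsOn_exists (pull (E.pull T hT) e he 0) hPQ
  have hs : SplitsAlong E e (fun z => T (fun j => (z 0 * P j + z 1 * Q j) ^ e)) p q := by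
    obtain ⟨g₁, g₂, h1, h2, h3⟩ := hpq
    refine ⟨g₁, g₂, fun i => ?_, fun i => ?_, fun z hz => ?_⟩
    · have h4 := h1 i
      have h5 : (pull (E.pull T hT) e he 0).β i = e * E.β i := add_zero _
      rw [h5] at h4
      exact h4
    · have h4 := h2 i
      have h5 : (pull (E.pull T hT) e he 0).β i = e * E.β i := add_zero _
      rw [h5] at h4
      exact h4
    · have h4 := h3 z hz
      have h5 : (pull (E.pull T hT) e he 0).fib (z 0 • P + z 1 • Q) =
          E.fib (T (fun j => (z 0 * P j + z 1 * Q j) ^ e)) := by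
        rw [Pool.Agent.Q72.PW.fib_pull, Bundle2.fib_pull]
        rfl
      rw [h5] at h4
      exact h4
  have h6 := hcon Q hQ hPQ p q hs
  exact ⟨p, q, by omega, hpq⟩

end Pool.Agent.Results.MP_745d3a_ag.JumpingCurves
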