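import Pool.Agent.Q72.PW.Sym
import Pool.Agent.Results.MP_b01859_ag.SymmetryAlgebra
import Pool.Agent.Results.MP_745d3a_ag.TripleEigenvalue

/-!
# Infinitesimal symmetries of pull-backs under power maps

Let `E` be a rank two bundle on `P^n`, `n ≥ 4`, which does not split, and let `F` be the pull-back
of `E` under the map `x_i ↦ x_i ^ e`, `e ≥ 2` (twisted by `O(t)`).  If a linear vector field
`x ↦ N x` lifts to `F`, then `N` is a diagonal matrix and the vector field `x ↦ e N x` lifts to `E`.

The proof uses the theorem on the infinitesimal symmetries of the starting files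
(`MP_b01859_ag.SymmetryAlgebra`) for `F`: modulo the scalars there is at most one, `X`, and it is
diagonalisable with integral eigenvalues.  The diagonal matrices `g` of `e`-th roots of unity act on
`F`, so `g X g⁻¹ = λ X + μ`; comparing traces of `X` and `X²` one gets `λ² = 1`, while an entry
`X_kl ≠ 0`, `k ≠ l`, would give `λ = ζ` for a primitive `e`-th root of unity `ζ`.  For `e = 2`
it remains to exclude that `X` is the sum of a scalar matrix and a matrix with entries only at
`(k, l)` and `(l, k)`; it has an eigenvalue of multiplicity `n - 1 ≥ 3`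
(`MP_745d3a_ag.TripleEigenvalue` of the starting files).  A diagonal symmetry of `F` descends to `E` by keeping the monomials in the `e`-th powers.
-/

set_option autoImplicit false

open MvPolynomial H960VB Pool.Agent.Q72.PW
open Pool.Agent.Results.MP_b01859_ag.SymmetryAlgebra (IsLift)

namespace Pool.Agent.Results.MP_745d3a_ag.SymmetriesOfPullbacks

theorem var_ne {m : ℕ} (w : Fin m → ℤ) (h : ∃ i j, w i ≠ w j) :
    (m : ℤ) * ∑ i, w i ^ 2 - (∑ i, w i) ^ 2 ≠ 0 := by
  have key : ∑ i, ∑ j, (w i - w j) ^ 2 = 2 * ((m : ℤ) * ∑ i, w i ^ 2 - (∑ i, w i) ^ 2) := by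
    have h1 : ∀ i j, (w i - w j) ^ 2 = w i ^ 2 - 2 * (w i * w j) + w j ^ 2 := fun i j => by ring
    simp_rw [h1, Finset.sum_add_distrib, Finset.sum_sub_distrib, ← Finset.mul_sum,
      ← Finset.sum_mul]
    simp only [Finset.sum_const, Finset.card_univ, Fintype.card_fin, nsmul_eq_mul]
    rw [← Finset.mul_sum]
    ring
  obtain ⟨i, j, hij⟩ := h
  have hpos : 0 < ∑ i, ∑ j, (w i - w j) ^ 2 := by
    refine Finset.sum_pos' (fun i _ => Finset.sum_nonneg fun j _ => sq_nonneg _)
      ⟨i, Finset.mem_univ i, Finset.sum_pos' (fun j _ => sq_nonneg _) ⟨j, Finset.mem_univ j, ?_⟩⟩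
    exact lt_of_le_of_ne (sq_nonneg _) (Ne.symm (pow_ne_zero 2 (sub_ne_zero.2 hij)))
  intro h0
  rw [h0, mul_zero] at key
  exact hpos.ne' key

/-- the linear algebra -/
theorem offdiag {n : ℕ} (P P' : Matrix (Fin (n + 1)) (Fin (n + 1)) ℂ) (w : Fin (n + 1) → ℤ)
    (hP : P * P' = 1) (N : Matrix (Fin (n + 1)) (Fin (n + 1)) ℂ) (ζ : ℂ) (hζ0 : ζ ≠ 0)
    (hζ : ζ ^ 2 ≠ 1)
    (hN : ∃ a b : ℂ, N = a • (P * Matrix.diagonal (fun i => (w i : ℂ)) * P') + b • 1)
    (k l : Fin (n + 1)) (hkl : k ≠ l)
    (hc : ∃ a b : ℂ, ∀ s t, Function.update (fun _ => (1 : ℂ)) k ζ s * N s t *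
        Function.update (fun _ => (1 : ℂ)) k ζ⁻¹ t =
      (a • (P * Matrix.diagonal (fun i => (w i : ℂ)) * P') +
        b • (1 : Matrix (Fin (n + 1)) (Fin (n + 1)) ℂ)) s t) : N k l = 0 := by
  classical
  by_contra hne
  set X : Matrix (Fin (n + 1)) (Fin (n + 1)) ℂ := P * Matrix.diagonal (fun i => (w i : ℂ)) * P'
    with hX
  have hP' : P' * P = 1 := mul_eq_one_comm.1 hP
  obtain ⟨a, b, hab⟩ := hN
  obtain ⟨a', b', hab'⟩ := hc
  -- the entries at `k, l`
  have e1 : N k l = a * X k l := by
    rw [hab]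
    simp [Matrix.add_apply, Matrix.smul_apply, Matrix.one_apply_ne hkl]
  have ha : a ≠ 0 := by
    intro h0
    rw [h0, zero_mul] at e1
    exact hne e1
  have e2 : ζ * N k l = a' * X k l := by
    have h1 := hab' k l
    simp only [Function.update_self, Function.update_of_ne (Ne.symm hkl), mul_one] at h1
    rw [h1]
    simp [Matrix.add_apply, Matrix.smul_apply, Matrix.one_apply_ne hkl]
  have hX0 : X k l ≠ 0 := by
    intro h0
    rw [h0, mul_zero] at e1
    exact hne e1
  have e3 : a' = ζ * a := by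
    apply mul_right_cancel₀ hX0
    rw [← e2, e1]
    ring
  -- traces
  let G : Matrix (Fin (n + 1)) (Fin (n + 1)) ℂ :=
    Matrix.diagonal (Function.update (fun _ => (1 : ℂ)) k ζ)
  let G' : Matrix (Fin (n + 1)) (Fin (n + 1)) ℂ :=
    Matrix.diagonal (Function.update (fun _ => (1 : ℂ)) k ζ⁻¹)
  have hG : G' * G = 1 := by
    show Matrix.diagonal _ * Matrix.diagonal _ = 1
    rw [Matrix.diagonal_mul_diagonal]
    have h1 : (fun i => Function.update (fun _ => (1 : ℂ)) k ζ⁻¹ i *
        Function.update (fun _ => (1 : ℂ)) k ζ i) = fun _ => 1 := by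
      funext i
      by_cases hi : i = k
      · subst hi
        rw [Function.update_self, Function.update_self, inv_mul_cancel₀ hζ0]
      · rw [Function.update_of_ne hi, Function.update_of_ne hi, one_mul]
    rw [h1]
    exact Matrix.diagonal_one
  have hconj : G * N * G' = a' • X + b' • 1 := by
    ext s t
    rw [← hab' s t]
    show (Matrix.diagonal _ * N * Matrix.diagonal _ : Matrix _ _ ℂ) s t = _
    rw [Matrix.mul_diagonal, Matrix.diagonal_mul]
  have t1 : (G * N * G').trace = N.trace := by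
    rw [Matrix.mul_assoc, Matrix.trace_mul_comm, Matrix.mul_assoc, hG, Matrix.mul_one]
  have t2 : ((G * N * G') * (G * N * G')).trace = (N * N).trace := by
    have h1 : (G * N * G') * (G * N * G') = G * (N * N) * G' := by
      calc (G * N * G') * (G * N * G') = G * N * (G' * G) * N * G' := by
            simp only [Matrix.mul_assoc]
        _ = G * (N * N) * G' := by rw [hG, Matrix.mul_one]; simp only [Matrix.mul_assoc]
    rw [h1, Matrix.mul_assoc, Matrix.trace_mul_comm, Matrix.mul_assoc, hG, Matrix.mul_one]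
  have x1 : X.trace = ∑ i, (w i : ℂ) := by
    rw [hX, Matrix.mul_assoc, Matrix.trace_mul_comm, Matrix.mul_assoc, hP', Matrix.mul_one,
      Matrix.trace_diagonal]
  have x2 : (X * X).trace = ∑ i, (w i : ℂ) ^ 2 := by
    have h1 : X * X = P * (Matrix.diagonal (fun i => (w i : ℂ)) *
        Matrix.diagonal (fun i => (w i : ℂ))) * P' := by
      calc X * X = P * Matrix.diagonal (fun i => (w i : ℂ)) * (P' * P) *
            Matrix.diagonal (fun i => (w i : ℂ)) * P' := by
              rw [hX]; simp only [Matrix.mul_assoc]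
        _ = _ := by rw [hP', Matrix.mul_one]; simp only [Matrix.mul_assoc]
    rw [h1, Matrix.mul_assoc, Matrix.trace_mul_comm, Matrix.mul_assoc, hP', Matrix.mul_one,
      Matrix.diagonal_mul_diagonal, Matrix.trace_diagonal]
    exact Finset.sum_congr rfl fun i _ => by ring
  have tr : ∀ u v : ℂ, (u • X + v • (1 : Matrix (Fin (n + 1)) (Fin (n + 1)) ℂ)).trace =
      u * X.trace + v * (n + 1) := by
    intro u v
    rw [Matrix.trace_add, Matrix.trace_smul, Matrix.trace_smul, Matrix.trace_one]
    simp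
  have tr2 : ∀ u v : ℂ, ((u • X + v • (1 : Matrix (Fin (n + 1)) (Fin (n + 1)) ℂ)) *
      (u • X + v • 1)).trace = u ^ 2 * (X * X).trace + 2 * u * v * X.trace + v ^ 2 * (n + 1) := by
    intro u v
    have h1 : (u • X + v • (1 : Matrix (Fin (n + 1)) (Fin (n + 1)) ℂ)) * (u • X + v • 1) =
        (u ^ 2) • (X * X) + (2 * u * v) • X + (v ^ 2) • 1 := by
      rw [add_mul, mul_add, mul_add]
      simp only [Matrix.smul_mul, Matrix.mul_smul, Matrix.mul_one, Matrix.one_mul, smul_smul]
      module
    rw [h1, Matrix.trace_add, Matrix.trace_add, Matrix.trace_smul, Matrix.trace_smul,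
      Matrix.trace_smul, Matrix.trace_one]
    simp
  rw [hconj, hab, tr, tr] at t1
  rw [hconj, hab, tr2, tr2] at t2
  by_cases hw : ∃ i j, w i ≠ w j
  · have hv := var_ne w hw
    have hv' : ((n : ℂ) + 1) * (X * X).trace - X.trace ^ 2 ≠ 0 := by
      rw [x1, x2]
      have h1 : ((n : ℂ) + 1) * ∑ i, (w i : ℂ) ^ 2 - (∑ i, (w i : ℂ)) ^ 2 =
          ((((n + 1 : ℕ) : ℤ) * ∑ i, w i ^ 2 - (∑ i, w i) ^ 2 : ℤ) : ℂ) := by
        push_cast; ring
      rw [h1]
      exact_mod_cast hv
    have h4 : a ^ 2 * (1 - ζ ^ 2) * (((n : ℂ) + 1) * (X * X).trace - X.trace ^ 2) = 0 := by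
      rw [e3] at t1 t2
      linear_combination (-((n : ℂ) + 1)) * t2 +
        (ζ * a * X.trace + a * X.trace + (b' + b) * ((n : ℂ) + 1)) * t1
    rcases mul_eq_zero.1 h4 with h5 | h5
    · rcases mul_eq_zero.1 h5 with h6 | h6
      · exact ha (pow_eq_zero_iff (two_ne_zero)|>.1 h6)
      · exact hζ (sub_eq_zero.1 h6).symm
    · exact hv' h5
  · push Not at hw
    apply hX0
    have h1 : Matrix.diagonal (fun i => (w i : ℂ)) = ((w k : ℤ) : ℂ) •
        (1 : Matrix (Fin (n + 1)) (Fin (n + 1)) ℂ) := by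
      rw [← Matrix.diagonal_one, ← Matrix.diagonal_smul]
      congr 1
      funext i
      simp [hw i k]
    rw [hX, h1, Matrix.mul_smul, Matrix.mul_one, Matrix.smul_mul, hP, Matrix.smul_apply,
      Matrix.one_apply_ne hkl, smul_zero]

/-- the case of the square -/
theorem off2 {n : ℕ} (hn : 4 ≤ n) (P P' : Matrix (Fin (n + 1)) (Fin (n + 1)) ℂ)
    (w : Fin (n + 1) → ℤ) (hP : P * P' = 1) (N : Matrix (Fin (n + 1)) (Fin (n + 1)) ℂ)
    (hN : ∃ a b : ℂ, N = a • (P * Matrix.diagonal (fun i => (w i : ℂ)) * P') + b • 1)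
    (k l : Fin (n + 1)) (hkl : k ≠ l)
    (hc : ∀ j, ∃ a b : ℂ, ∀ s t, Function.update (fun _ => (1 : ℂ)) j (-1) s * N s t *
        Function.update (fun _ => (1 : ℂ)) j (-1) t =
      (a • (P * Matrix.diagonal (fun i => (w i : ℂ)) * P') +
        b • (1 : Matrix (Fin (n + 1)) (Fin (n + 1)) ℂ)) s t) (hne : N k l ≠ 0) :
    ∃ c : ℂ, 3 ≤ Pool.Agent.Results.MP_745d3a_ag.TripleEigenvalue.kerDim N c 1 ∧
      ∃ (m : ℂ) (v : Fin (n + 1) → ℂ), m ≠ c ∧ v ≠ 0 ∧ N.mulVec v = m • v := by
  classical
  obtain ⟨a, b, hab⟩ := hN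
  set X : Matrix (Fin (n + 1)) (Fin (n + 1)) ℂ := P * Matrix.diagonal (fun i => (w i : ℂ)) * P'
    with hX
  have hP' : P' * P = 1 := mul_eq_one_comm.1 hP
  have ha : a ≠ 0 := by
    intro h0
    apply hne
    rw [hab, h0, zero_smul, zero_add, Matrix.smul_apply, Matrix.one_apply_ne hkl, smul_zero]
  -- `g_j N g_j = - N + μ_j` for `j = k, l`
  have key : ∀ j, (j = k ∨ j = l) → ∃ μ : ℂ, ∀ s t,
      Function.update (fun _ => (1 : ℂ)) j (-1) s * N s t *
        Function.update (fun _ => (1 : ℂ)) j (-1) t =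
      -N s t + μ * (1 : Matrix (Fin (n + 1)) (Fin (n + 1)) ℂ) s t := by
    intro j hj
    obtain ⟨a', b', h1⟩ := hc j
    have hXN : ∀ s t, X s t = a⁻¹ * (N s t - b * (1 : Matrix (Fin (n + 1)) (Fin (n + 1)) ℂ) s t) := by
      intro s t
      rw [hab, Matrix.add_apply, Matrix.smul_apply, Matrix.smul_apply, smul_eq_mul, smul_eq_mul,
        add_sub_cancel_right, ← mul_assoc, inv_mul_cancel₀ ha, one_mul]
    have h2 : ∀ s t, (a' • X + b' • (1 : Matrix (Fin (n + 1)) (Fin (n + 1)) ℂ)) s t =
        a' * a⁻¹ * N s t + (b' - a' * a⁻¹ * b) * (1 : Matrix (Fin (n + 1)) (Fin (n + 1)) ℂ) s t := by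
      intro s t
      rw [Matrix.add_apply, Matrix.smul_apply, Matrix.smul_apply, smul_eq_mul, smul_eq_mul, hXN]
      ring
    have h3 : a' * a⁻¹ = -1 := by
      have h4 := (h1 k l).trans (h2 k l)
      rw [Matrix.one_apply_ne hkl, mul_zero, add_zero] at h4
      have h5 : Function.update (fun _ => (1 : ℂ)) j (-1) k * N k l *
          Function.update (fun _ => (1 : ℂ)) j (-1) l = -N k l := by
        rcases hj with rfl | rfl
        · rw [Function.update_self, Function.update_of_ne (Ne.symm hkl)]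
          ring
        · rw [Function.update_self, Function.update_of_ne hkl]
          ring
      rw [h5] at h4
      have h6 : (a' * a⁻¹ + 1) * N k l = 0 := by linear_combination -h4
      rcases mul_eq_zero.1 h6 with h7 | h7
      · linear_combination h7
      · exact absurd h7 hne
    refine ⟨b' - a' * a⁻¹ * b, fun s t => ?_⟩
    rw [h1 s t, h2 s t, h3]
    ring
  obtain ⟨μ, hμ⟩ := key k (Or.inl rfl)
  obtain ⟨μ', hμ'⟩ := key l (Or.inr rfl)
  have hdiag : ∀ s, N s s = μ / 2 := by
    intro s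
    have h1 := hμ s s
    rw [Matrix.one_apply_eq] at h1
    by_cases hs : s = k
    · subst hs
      rw [Function.update_self] at h1
      linear_combination h1 / 2
    · rw [Function.update_of_ne hs] at h1
      linear_combination h1 / 2
  have hoff : ∀ s t, s ≠ t → (s ≠ k ∧ s ≠ l) ∨ (t ≠ k ∧ t ≠ l) → N s t = 0 := by
    intro s t hst hor
    -- either `s, t ≠ k` or `s, t ≠ l`
    have h2 : (s ≠ k ∧ t ≠ k) ∨ (s ≠ l ∧ t ≠ l) := by
      rcases hor with ⟨h3, h4⟩ | ⟨h3, h4⟩
      · by_cases h5 : t = k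
        · right; exact ⟨h4, fun h6 => hkl (h5.symm.trans h6)⟩
        · left; exact ⟨h3, h5⟩
      · by_cases h5 : s = k
        · right; exact ⟨fun h6 => hkl (h5.symm.trans h6), h4⟩
        · left; exact ⟨h5, h3⟩
    rcases h2 with ⟨h3, h4⟩ | ⟨h3, h4⟩
    · have h1 := hμ s t
      rw [Matrix.one_apply_ne hst, Function.update_of_ne h3, Function.update_of_ne h4] at h1
      linear_combination h1 / 2
    · have h1 := hμ' s t
      rw [Matrix.one_apply_ne hst, Function.update_of_ne h3, Function.update_of_ne h4] at h1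
      linear_combination h1 / 2
  refine ⟨μ / 2, ?_, ?_⟩
  · -- the rank is at most two
    unfold Pool.Agent.Results.MP_745d3a_ag.TripleEigenvalue.kerDim
    rw [pow_one]
    set M := (N - Matrix.scalar (Fin (n + 1)) (μ / 2)).mulVecLin with hM
    have h1 : LinearMap.range M ≤
        Submodule.span ℂ (({Pi.single k 1, Pi.single l 1} : Finset (Fin (n + 1) → ℂ)) :
          Set (Fin (n + 1) → ℂ)) := by
      rintro _ ⟨x, rfl⟩
      have h2 : M x = (M x k) • (Pi.single k 1 : Fin (n + 1) → ℂ) +
          (M x l) • (Pi.single l 1 : Fin (n + 1) → ℂ) := by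
        funext s
        rw [Pi.add_apply, Pi.smul_apply, Pi.smul_apply, smul_eq_mul, smul_eq_mul]
        by_cases hsk : s = k
        · subst hsk
          rw [Pi.single_eq_same, Pi.single_eq_of_ne hkl]
          ring
        · by_cases hsl : s = l
          · subst hsl
            rw [Pi.single_eq_same, Pi.single_eq_of_ne hsk]
            ring
          · rw [Pi.single_eq_of_ne hsk, Pi.single_eq_of_ne hsl, mul_zero, mul_zero, add_zero]
            rw [hM, Matrix.mulVecLin_apply, Matrix.mulVec, dotProduct]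
            refine Finset.sum_eq_zero fun t _ => ?_
            rw [Matrix.sub_apply, Matrix.scalar_apply]
            by_cases hst : s = t
            · subst hst
              rw [Matrix.diagonal_apply_eq, hdiag, sub_self, zero_mul]
            · rw [Matrix.diagonal_apply_ne _ hst, hoff s t hst (Or.inl ⟨hsk, hsl⟩), sub_self,
                zero_mul]
      rw [h2]
      refine Submodule.add_mem _ (Submodule.smul_mem _ _ (Submodule.subset_span ?_))
        (Submodule.smul_mem _ _ (Submodule.subset_span ?_))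
      · simp
      · simp
    have h2 : Module.finrank ℂ (LinearMap.range M) ≤ 2 := by
      refine (Submodule.finrank_mono h1).trans ((finrank_span_finset_le_card _).trans ?_)
      exact Finset.card_le_two
    have h3 := LinearMap.finrank_range_add_finrank_ker M
    rw [Module.finrank_fin_fun] at h3
    omega
  · -- another eigenvalue
    have h1 : ∃ i, a * (w i : ℂ) + b ≠ μ / 2 := by
      by_contra hall
      push Not at hall
      apply hne
      have h2 : Matrix.diagonal (fun i => (w i : ℂ)) =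
          (a⁻¹ * (μ / 2 - b)) • (1 : Matrix (Fin (n + 1)) (Fin (n + 1)) ℂ) := by
        rw [← Matrix.diagonal_one, ← Matrix.diagonal_smul]
        congr 1
        funext i
        rw [Pi.smul_apply, smul_eq_mul, mul_one, ← hall i, add_sub_cancel_right, ← mul_assoc,
          inv_mul_cancel₀ ha, one_mul]
      rw [hab, hX, h2, Matrix.mul_smul, Matrix.mul_one, Matrix.smul_mul, hP, Matrix.add_apply,
        Matrix.smul_apply, Matrix.smul_apply, Matrix.smul_apply, Matrix.one_apply_ne hkl]
      simp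
    obtain ⟨i, hi⟩ := h1
    refine ⟨a * (w i : ℂ) + b, P.mulVec (Pi.single i 1), hi, ?_, ?_⟩
    · intro h0
      have h2 := congrArg P'.mulVec h0
      rw [Matrix.mulVec_mulVec, hP', Matrix.one_mulVec, Matrix.mulVec_zero] at h2
      have h3 := congrFun h2 i
      rw [Pi.single_eq_same, Pi.zero_apply] at h3
      exact one_ne_zero h3
    · have h2 : N * P = P * Matrix.diagonal (fun i => a * (w i : ℂ) + b) := by
        have h3 : Matrix.diagonal (fun i => a * (w i : ℂ) + b) =
            a • Matrix.diagonal (fun i => (w i : ℂ)) + b • 1 := by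
          rw [← Matrix.diagonal_one, ← Matrix.diagonal_smul, ← Matrix.diagonal_smul,
            Matrix.diagonal_add]
          congr 1
          funext i
          simp
        rw [h3, hab, hX, Matrix.add_mul, Matrix.smul_mul, Matrix.mul_assoc, hP', Matrix.mul_one,
          Matrix.mul_add, Matrix.mul_smul, Matrix.mul_smul, Matrix.mul_one, Matrix.smul_mul,
          Matrix.one_mul]
      rw [Matrix.mulVec_mulVec, h2, ← Matrix.mulVec_mulVec]
      have h4 : (Matrix.diagonal (fun i => a * (w i : ℂ) + b)).mulVec (Pi.single i 1) =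
          (a * (w i : ℂ) + b) • (Pi.single i 1 : Fin (n + 1) → ℂ) := by
        funext s
        rw [Matrix.mulVec_diagonal, Pi.smul_apply, smul_eq_mul]
        by_cases hs : s = i
        · subst hs; rfl
        · rw [Pi.single_eq_of_ne hs, mul_zero, mul_zero]
      rw [h4, Matrix.mulVec_smul]

theorem result {n : ℕ} (hn : 4 ≤ n) (E : Bundle2 n) (hE : ¬ E.Splits) (e : ℕ) (he : 0 < e)
    (h2 : 2 ≤ e) (t : ℤ) (N : Matrix (Fin (n + 1)) (Fin (n + 1)) ℂ)
    (D : (Fin (pull E e he t).a → MvPolynomial (Fin (n + 1)) ℂ) →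
      Fin (pull E e he t).a → MvPolynomial (Fin (n + 1)) ℂ)
    (hD : IsLift (pull E e he t) N D) :
    ∃ v : Fin (n + 1) → ℂ, N = Matrix.diagonal v ∧
      ∃ D' : (Fin E.a → MvPolynomial (Fin (n + 1)) ℂ) → Fin E.a → MvPolynomial (Fin (n + 1)) ℂ,
        IsLift E (Matrix.diagonal fun i => (e : ℂ) * v i) D' := by
  have hF : ¬ (pull E e he t).Splits := fun h => hE (splits_of_pull (by omega) he t h)
  obtain ⟨P, P', w, hP, hall⟩ :=
    Pool.Agent.Results.MP_b01859_ag.SymmetryAlgebra.result hn (pull E e he t) hF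
  have hD' : Lf (pull E e he t) N D := ⟨hD.sec, hD.add, hD.leib⟩
  have hprim := Complex.isPrimitiveRoot_exp e he.ne'
  set ζ : ℂ := Complex.exp (2 * Real.pi * Complex.I / e) with hζdef
  have hζe : ζ ^ e = 1 := hprim.pow_eq_one
  have hζ0 : ζ ≠ 0 := Complex.exp_ne_zero _
  have hconj : ∀ k, ∃ a b : ℂ, ∀ s t, Function.update (fun _ => (1 : ℂ)) k ζ s * N s t *
      Function.update (fun _ => (1 : ℂ)) k ζ⁻¹ t =
      (a • (P * Matrix.diagonal (fun i => (w i : ℂ)) * P') +
        b • (1 : Matrix (Fin (n + 1)) (Fin (n + 1)) ℂ)) s t := by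
    intro k
    have hg : ∀ j, Function.update (fun _ => (1 : ℂ)) k ζ j ^ e = 1 := by
      intro j
      by_cases hj : j = k
      · subst hj; rw [Function.update_self, hζe]
      · rw [Function.update_of_ne hj, one_pow]
    have hgg : ∀ j, Function.update (fun _ => (1 : ℂ)) k ζ j *
        Function.update (fun _ => (1 : ℂ)) k ζ⁻¹ j = 1 := by
      intro j
      by_cases hj : j = k
      · subst hj; rw [Function.update_self, Function.update_self, mul_inv_cancel₀ hζ0]
      · rw [Function.update_of_ne hj, Function.update_of_ne hj, one_mul]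
    have h4 := lf_conj he t _ _ hg hgg hD'
    obtain ⟨a, b, hab⟩ := hall _ _ ⟨h4.sec, h4.add, h4.leib⟩
    exact ⟨a, b, fun s t => congrFun (congrFun hab s) t⟩
  have hdiag : ∀ k l, k ≠ l → N k l = 0 := by
    intro k l hkl
    rcases h2.lt_or_eq with h3 | h3
    · have hζ2 : ζ ^ 2 ≠ 1 := by
        intro h
        have h1 := hprim.dvd_of_pow_eq_one 2 h
        have h4 := Nat.le_of_dvd (by norm_num) h1
        omega
      exact offdiag P P' w hP N ζ hζ0 hζ2 (hall N D hD) k l hkl (hconj k)
    · by_contra hne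
      have hζm : ζ = -1 := by
        have h4 : ζ ^ 2 = 1 := by rw [h3]; exact hζe
        rcases mul_self_eq_one_iff.1 (show ζ * ζ = 1 by rw [← sq]; exact h4) with h5 | h5
        · exfalso
          have h6 := hprim.dvd_of_pow_eq_one 1 (by rw [pow_one]; exact h5)
          have h7 := Nat.le_of_dvd (by norm_num) h6
          omega
        · exact h5
      have hζi : ζ⁻¹ = -1 := by rw [hζm]; norm_num
      rw [hζi, hζm] at hconj
      obtain ⟨c, h5, m, v, h6, h7, h8⟩ := off2 hn P P' w hP N (hall N D hD) k l hkl hconj hne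
      exact hF (Pool.Agent.Results.MP_745d3a_ag.TripleEigenvalue.result (by omega)
        (pull E e he t) N D ⟨hD.sec, hD.add, hD.leib⟩ c 1 h5 m v h6 h7 h8)
  have hN : N = Matrix.diagonal fun i => N i i := by
    ext i j
    by_cases hij : i = j
    · subst hij; rw [Matrix.diagonal_apply_eq]
    · rw [Matrix.diagonal_apply_ne _ hij, hdiag i j hij]
  refine ⟨fun i => N i i, hN, fun G i => desc e (D (fun i => expand e (G i)) i), ?_⟩
  rw [hN] at hD'
  have h5 := lf_desc he t hD'
  exact ⟨h5.sec, h5.add, h5.leib⟩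

end Pool.Agent.Results.MP_745d3a_ag.SymmetriesOfPullbacks
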