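import Pool.Agent.Results.MP_745d3a_ag.SymmetriesOfPullbacks

/-!
# Pull-backs without infinitesimal symmetries

Let `E` be a rank two bundle on `P^n`, `n ≥ 4`, which does not split, and `e ≥ 2`.  There is a
linear change of coordinates `T` such that the pull-back of `E` under the finite self-map
`x ↦ T (x_0 ^ e, ..., x_n ^ e)` of `P^n` has no infinitesimal symmetries except the scalar
matrices: if the vector field `x ↦ N x` lifts to it, then `N` is a scalar matrix.
-/

set_option autoImplicit false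

open MvPolynomial H960VB Pool.Agent.Q72.PW
open Pool.Agent.Results.MP_b01859_ag.SymmetryAlgebra (IsLift)

namespace Pool.Agent.Results.MP_745d3a_ag.SymmetryFreePullbacks

/-- change of coordinates for the derivative along a linear vector field -/
theorem alg_lsub {n : ℕ} {Q N N' : Matrix (Fin (n + 1)) (Fin (n + 1)) ℂ} (h : N * Q = Q * N')
    (p : MvPolynomial (Fin (n + 1)) ℂ) :
    lsub Q.mulVecLin (alg N p) = alg N' (lsub Q.mulVecLin p) := by
  have h1 := Pool.Agent.W615.lsub_conj h p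
  rw [Pool.Agent.W615.vf_eq_sum, Pool.Agent.W615.vf_eq_sum] at h1
  exact h1

theorem lsub_lsub {n : ℕ} {Q Q' : Matrix (Fin (n + 1)) (Fin (n + 1)) ℂ} (h : Q * Q' = 1)
    (p : MvPolynomial (Fin (n + 1)) ℂ) : lsub Q'.mulVecLin (lsub Q.mulVecLin p) = p := by
  apply MvPolynomial.funext
  intro x
  rw [eval_lsub, eval_lsub, Matrix.mulVecLin_apply, Matrix.mulVecLin_apply, Matrix.mulVec_mulVec,
    h, Matrix.one_mulVec]

theorem evv_lsub {n a : ℕ} (Q : Matrix (Fin (n + 1)) (Fin (n + 1)) ℂ)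
    (G : Fin a → MvPolynomial (Fin (n + 1)) ℂ) (x : Fin (n + 1) → ℂ) :
    evv (fun i => lsub Q.mulVecLin (G i)) x = evv G (Q.mulVecLin x) := by
  funext i
  exact eval_lsub _ x (G i)

theorem sec_lsub {n : ℕ} {E : Bundle2 n} {Q : Matrix (Fin (n + 1)) (Fin (n + 1)) ℂ}
    (hQ : Function.Injective Q.mulVecLin) {d : ℤ} {G : Fin E.a → MvPolynomial (Fin (n + 1)) ℂ}
    (hG : E.IsSection d G) :
    (E.pull Q.mulVecLin hQ).IsSection d (fun i => lsub Q.mulVecLin (G i)) := by
  refine ⟨fun i => homZ_lsub _ (hG.1 i), fun x hx => ?_⟩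
  have hx' : Q.mulVecLin x ≠ 0 := fun h => hx (hQ (by rw [h, map_zero]))
  have h1 := hG.2 _ hx'
  rw [Bundle2.fib_pull]
  have h2 : evv (fun i => lsub Q.mulVecLin (G i)) x = evv G (Q.mulVecLin x) := evv_lsub Q G x
  exact h2 ▸ h1

theorem sec_back {n : ℕ} {E : Bundle2 n} {Q Q' : Matrix (Fin (n + 1)) (Fin (n + 1)) ℂ}
    (h : Q * Q' = 1) (hQ : Function.Injective Q.mulVecLin) {d : ℤ}
    {G : Fin (E.pull Q.mulVecLin hQ).a → MvPolynomial (Fin (n + 1)) ℂ}
    (hG : (E.pull Q.mulVecLin hQ).IsSection d G) :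
    E.IsSection d (fun i => lsub Q'.mulVecLin (G i)) := by
  refine ⟨fun i => homZ_lsub _ (hG.1 i), fun x hx => ?_⟩
  have h1 : Q.mulVecLin (Q'.mulVecLin x) = x := by
    rw [Matrix.mulVecLin_apply, Matrix.mulVecLin_apply, Matrix.mulVec_mulVec, h,
      Matrix.one_mulVec]
  have hx' : Q'.mulVecLin x ≠ 0 := by
    intro h0
    rw [h0, map_zero] at h1
    exact hx h1.symm
  have h2 := hG.2 _ hx'
  rw [Bundle2.fib_pull, h1] at h2
  have h3 : evv (fun i => lsub Q'.mulVecLin (G i)) x = evv G (Q'.mulVecLin x) :=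
    evv_lsub Q' G x
  exact h3 ▸ h2

/-- change of coordinates for lifts -/
theorem lift_coord {n : ℕ} (E : Bundle2 n) {Q Q' : Matrix (Fin (n + 1)) (Fin (n + 1)) ℂ}
    (h : Q * Q' = 1) (hQ : Function.Injective Q.mulVecLin)
    {N : Matrix (Fin (n + 1)) (Fin (n + 1)) ℂ}
    {D : (Fin (E.pull Q.mulVecLin hQ).a → MvPolynomial (Fin (n + 1)) ℂ) →
      Fin (E.pull Q.mulVecLin hQ).a → MvPolynomial (Fin (n + 1)) ℂ}
    (hD : IsLift (E.pull Q.mulVecLin hQ) N D) :
    IsLift E (Q * N * Q')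
      (fun G i => lsub Q'.mulVecLin (D (fun i => lsub Q.mulVecLin (G i)) i)) := by
  have h' : Q' * Q = 1 := mul_eq_one_comm.1 h
  refine ⟨?_, ?_, ?_⟩
  · intro d G hG
    exact sec_back h hQ (hD.sec d _ (sec_lsub hQ hG))
  · intro d G G' hG hG'
    have h1 : (fun i => lsub Q.mulVecLin ((G + G') i)) =
        (fun i => lsub Q.mulVecLin (G i)) + fun i => lsub Q.mulVecLin (G' i) := by
      funext i
      simp only [Pi.add_apply, map_add]
    have h2 : D (fun i => lsub Q.mulVecLin ((G + G') i)) =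
        D (fun i => lsub Q.mulVecLin (G i)) + D (fun i => lsub Q.mulVecLin (G' i)) :=
      (congrArg D h1).trans (hD.add d _ _ (sec_lsub hQ hG) (sec_lsub hQ hG'))
    funext i
    exact (congrArg (lsub Q'.mulVecLin) (congrFun h2 i)).trans (map_add _ _ _)
  · intro d m p G hG hp
    have h1 : (fun i => lsub Q.mulVecLin ((p • G) i)) =
        lsub Q.mulVecLin p • fun i => lsub Q.mulVecLin (G i) := by
      funext i
      simp only [Pi.smul_apply, smul_eq_mul, map_mul]
    have h2 : D (fun i => lsub Q.mulVecLin ((p • G) i)) =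
        alg N (lsub Q.mulVecLin p) •
          (fun i : Fin (E.pull Q.mulVecLin hQ).a => lsub Q.mulVecLin (G i)) +
          lsub Q.mulVecLin p • D (fun i => lsub Q.mulVecLin (G i)) :=
      (congrArg D h1).trans (hD.leib d m _ _ (sec_lsub hQ hG) (homZ_lsub _ hp))
    have h3 : lsub Q'.mulVecLin (alg N (lsub Q.mulVecLin p)) = alg (Q * N * Q') p := by
      have h4 : N * Q' = Q' * (Q * N * Q') := by
        rw [← mul_assoc, ← mul_assoc, h', one_mul]
      rw [alg_lsub h4, lsub_lsub h]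
    funext i
    have h5 : ∀ q r : MvPolynomial (Fin (n + 1)) ℂ, lsub Q'.mulVecLin
        (alg N (lsub Q.mulVecLin p) * lsub Q.mulVecLin q + lsub Q.mulVecLin p * r) =
        alg (Q * N * Q') p * q + p * lsub Q'.mulVecLin r := by
      intro q r
      rw [map_add, map_mul, map_mul, h3, lsub_lsub h, lsub_lsub h]
    exact (congrArg (lsub Q'.mulVecLin) (congrFun h2 i)).trans (h5 (G i) _)

/-- coordinates in which a matrix is not diagonal -/
theorem exists_nondiag {n : ℕ} (X : Matrix (Fin (n + 1)) (Fin (n + 1)) ℂ) :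
    ∃ Q Q' : Matrix (Fin (n + 1)) (Fin (n + 1)) ℂ, Q * Q' = 1 ∧
      ((∃ k l, k ≠ l ∧ (Q' * X * Q) k l ≠ 0) ∨ ∃ c : ℂ, X = c • 1) := by
  classical
  by_cases h : ∃ k l, k ≠ l ∧ X k l ≠ 0
  · exact ⟨1, 1, by simp, Or.inl (by simpa using h)⟩
  push Not at h
  by_cases h2 : ∃ k, X k k ≠ X 0 0
  · obtain ⟨k, hk⟩ := h2
    have hk0 : k ≠ 0 := fun h3 => hk (by rw [h3])
    refine ⟨Matrix.transvection k 0 1, Matrix.transvection k 0 (-1), ?_,
      Or.inl ⟨k, 0, hk0, ?_⟩⟩
    · rw [Matrix.transvection_mul_transvection_same _ _ hk0, add_neg_cancel,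
        Matrix.transvection_zero]
    · unfold Matrix.transvection
      rw [Matrix.add_mul, Matrix.one_mul, Matrix.mul_add, Matrix.mul_one, Matrix.add_mul,
        Matrix.add_apply, Matrix.add_apply, Matrix.add_apply, Matrix.mul_single_apply_same,
        Matrix.mul_single_apply_same, Matrix.single_mul_apply_same,
        Matrix.single_mul_apply_same, h k 0 hk0, h 0 k (Ne.symm hk0)]
      intro h0
      apply hk
      linear_combination h0
  · push Not at h2
    refine ⟨1, 1, by simp, Or.inr ⟨X 0 0, ?_⟩⟩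
    ext i j
    by_cases hij : i = j
    · subst hij
      rw [Matrix.smul_apply, Matrix.one_apply_eq, smul_eq_mul, mul_one, h2 i]
    · rw [Matrix.smul_apply, Matrix.one_apply_ne hij, smul_zero, h i j hij]

theorem result {n : ℕ} (hn : 4 ≤ n) (E : Bundle2 n) (hE : ¬ E.Splits) (e : ℕ) (he : 0 < e)
    (h2 : 2 ≤ e) :
    ∃ T : (Fin (n + 1) → ℂ) ≃ₗ[ℂ] (Fin (n + 1) → ℂ), ∀ t : ℤ,
      ¬ (pull (E.pull T.toLinearMap T.injective) e he t).Splits ∧
      ∀ N D, IsLift (pull (E.pull T.toLinearMap T.injective) e he t) N D → ∃ c : ℂ, N = c • 1 := by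
  classical
  obtain ⟨P, P', w, hP, hall⟩ := Pool.Agent.Results.MP_b01859_ag.SymmetryAlgebra.result hn E hE
  obtain ⟨Q, Q', hQ, hX⟩ := exists_nondiag (P * Matrix.diagonal (fun i => (w i : ℂ)) * P')
  set X := P * Matrix.diagonal (fun i => (w i : ℂ)) * P' with hXdef
  have hQ' : Q' * Q = 1 := mul_eq_one_comm.1 hQ
  let T : (Fin (n + 1) → ℂ) ≃ₗ[ℂ] (Fin (n + 1) → ℂ) :=
    LinearEquiv.ofLinearMap Q.mulVecLin Q'.mulVecLin
      (by
        apply LinearMap.ext
        intro x
        rw [LinearMap.comp_apply, Matrix.mulVecLin_apply, Matrix.mulVecLin_apply,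
          Matrix.mulVec_mulVec, hQ, Matrix.one_mulVec]
        rfl)
      (by
        apply LinearMap.ext
        intro x
        rw [LinearMap.comp_apply, Matrix.mulVecLin_apply, Matrix.mulVecLin_apply,
          Matrix.mulVec_mulVec, hQ', Matrix.one_mulVec]
        rfl)
  have hnot : ¬ (E.pull T.toLinearMap T.injective).Splits :=
    fun h => hE (E.splits_of_pull_equiv T h)
  refine ⟨T, fun t => ⟨fun h => hnot (splits_of_pull (by omega) he t h), fun N D hD => ?_⟩⟩
  obtain ⟨v, hv, D', hD'⟩ := SymmetriesOfPullbacks.result hn _ hnot e he h2 t N D hD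
  have h3 : IsLift E (Q * (Matrix.diagonal fun i => (e : ℂ) * v i) * Q') _ :=
    lift_coord E (Q := Q) (Q' := Q') hQ T.injective hD'
  obtain ⟨a, b, hab⟩ := hall _ _ h3
  have h4 : (Matrix.diagonal fun i => (e : ℂ) * v i) = a • (Q' * X * Q) + b • 1 := by
    have h5 := congrArg (fun M => Q' * M * Q) hab
    simp only [Matrix.mul_add, Matrix.add_mul, Matrix.mul_smul, Matrix.smul_mul,
      Matrix.mul_one, hQ'] at h5
    rw [← h5]
    calc (Matrix.diagonal fun i => (e : ℂ) * v i)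
        = (Q' * Q) * (Matrix.diagonal fun i => (e : ℂ) * v i) * (Q' * Q) := by
          rw [hQ', Matrix.one_mul, Matrix.mul_one]
      _ = _ := by simp only [Matrix.mul_assoc]
  have h5 : ∃ c : ℂ, ∀ i, (e : ℂ) * v i = c := by
    rcases hX with ⟨k, l, hkl, hne⟩ | ⟨c, hc⟩
    · have h6 := congrFun (congrFun h4 k) l
      rw [Matrix.diagonal_apply_ne _ hkl, Matrix.add_apply, Matrix.smul_apply, Matrix.smul_apply,
        Matrix.one_apply_ne hkl, smul_zero, add_zero, smul_eq_mul] at h6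
      have ha : a = 0 := by
        rcases mul_eq_zero.1 h6.symm with h7 | h7
        · exact h7
        · exact absurd h7 hne
      refine ⟨b, fun i => ?_⟩
      have h7 := congrFun (congrFun h4 i) i
      rw [Matrix.diagonal_apply_eq, ha, zero_smul, zero_add, Matrix.smul_apply,
        Matrix.one_apply_eq, smul_eq_mul, mul_one] at h7
      exact h7
    · refine ⟨a * c + b, fun i => ?_⟩
      have h7 := congrFun (congrFun h4 i) i
      rw [Matrix.diagonal_apply_eq, hc, Matrix.mul_smul, Matrix.mul_one, Matrix.smul_mul, hQ',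
        Matrix.add_apply, Matrix.smul_apply, Matrix.smul_apply, Matrix.smul_apply,
        Matrix.one_apply_eq, smul_eq_mul, smul_eq_mul, smul_eq_mul, mul_one, mul_one] at h7
      exact h7
  obtain ⟨c, hc⟩ := h5
  have he0 : (e : ℂ) ≠ 0 := by exact_mod_cast he.ne'
  refine ⟨(e : ℂ)⁻¹ * c, ?_⟩
  rw [hv, ← Matrix.diagonal_one, ← Matrix.diagonal_smul]
  congr 1
  funext i
  rw [Pi.smul_apply, smul_eq_mul, mul_one, ← hc i, ← mul_assoc, inv_mul_cancel₀ he0, one_mul]

end Pool.Agent.Results.MP_745d3a_ag.SymmetryFreePullbacks
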